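import Mathlib

namespace Pool.Agent.Results.MP_c4e411_nt.Counter

/-- the `i`-th elementary symmetric polynomial of the entries of `x` -/
def sigma {n : ℕ} (i : ℕ) (x : Fin n → ℕ) : ℕ :=
  ∑ t ∈ Finset.powersetCard i (Finset.univ : Finset (Fin n)), ∏ j ∈ t, x j

/-- A non-decreasing solution of `σ₃ = σ_n` in positive integers that violates the conjectured
bound on `m` (namely `n = 11`, `(1,1,1,1,1,1,1,2,10,126,16177)`). -/
theorem result : ∃ (n : ℕ) (x : Fin n → ℕ), 4 ≤ n ∧ Monotone x ∧ (∀ i, 0 < x i) ∧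
    sigma 3 x = sigma n x ∧
    ¬ ((sigma 3 x : ℚ) ≤ (1 / 12) * (3021 * (n : ℚ) ^ 6 - 77575 * (n : ℚ) ^ 5 + 920361 * (n : ℚ) ^ 4
      - 6235705 * (n : ℚ) ^ 3 + 24764202 * (n : ℚ) ^ 2 - 53664304 * (n : ℚ) + 48986640)) := by
  refine ⟨11, ![1, 1, 1, 1, 1, 1, 1, 2, 10, 126, 16177], by norm_num, ?_, by decide, ?_, ?_⟩
  · intro a b
    revert a b
    decide +kernel
  · decide +kernel
  · have : sigma 3 ![1, 1, 1, 1, 1, 1, 1, 2, 10, 126, 16177] = 40766040 := by decide +kernel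
    rw [this]
    norm_num

end Pool.Agent.Results.MP_c4e411_nt.Counter
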